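import Pool.Agent.Helper57.CH.Frames
import Pool.Agent.Helper99.SC.Four

set_option autoImplicit false
set_option linter.unusedSimpArgs false

/-!
StMu: the characteristic function of the noise.
-/

namespace Pool.Agent.Helper63.CH

open Finset Pool.Agent.Helper57.CH Pool.Agent.Helper99.SC
open Pool.Agent.Helper7.SC (e nuhat v w St wt jump)

lemma norm_e (y : ℝ) : ‖e y‖ = 1 := by
  unfold e
  have h : (2 * Real.pi * y * Complex.I : ℂ) = ((2 * Real.pi * y : ℝ) : ℂ) * Complex.I := by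
    push_cast; ring
  rw [h]
  exact Complex.norm_exp_ofReal_mul_I _

lemma D_add (x y : ℝ) : ‖1 - e (x + y)‖ ≤ ‖1 - e x‖ + ‖1 - e y‖ := by
  have h : 1 - e (x + y) = (1 - e x) + e x * (1 - e y) := by
    rw [e_add]
    ring
  rw [h]
  refine (norm_add_le _ _).trans ?_
  rw [norm_mul, norm_e, one_mul]

lemma D_mul (n : ℕ) (y : ℝ) : ‖1 - e (n * y)‖ ≤ n * ‖1 - e y‖ := by
  induction n with
  | zero => simp [e_zero]
  | succ n ih =>
    have h : ((n + 1 : ℕ) : ℝ) * y = n * y + y := by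
      push_cast
      ring
    rw [h]
    refine (D_add _ _).trans ?_
    push_cast
    linarith

lemma D_sq (y : ℝ) : ‖1 - e y‖ ^ 2 = 2 * (1 - Real.cos (2 * Real.pi * y)) := by
  rw [← Complex.normSq_eq_norm_sq, Complex.normSq_apply, e_eq]
  simp only [Complex.sub_re, Complex.one_re, Complex.add_re, Complex.ofReal_re, Complex.mul_re,
    Complex.I_re, mul_zero, Complex.ofReal_im, Complex.I_im, mul_one, sub_zero, add_zero,
    Complex.sub_im, Complex.one_im, Complex.add_im, Complex.mul_im, zero_add, zero_sub, sub_self]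
  have h := Real.sin_sq_add_cos_sq (2 * Real.pi * y)
  nlinarith

lemma D_digits (b : ℕ) (hb : 2 ≤ b) (q : ℕ) : ∀ (t : ℕ) (y : ℝ), t < b ^ q →
    ‖1 - e (t * y)‖ ≤ b * ∑ i ∈ range q, ‖1 - e ((b : ℝ) ^ i * y)‖ := by
  induction q with
  | zero =>
    intro t y ht
    have h : t = 0 := by simpa using ht
    rw [h]
    simp [e_zero]
  | succ q ih =>
    intro t y ht
    have h1 : ((t : ℕ) : ℝ) * y = ((t % b : ℕ) : ℝ) * y + ((t / b : ℕ) : ℝ) * ((b : ℝ) * y) := by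
      have h2 : ((t : ℕ) : ℝ) = ((t % b : ℕ) : ℝ) + (b : ℝ) * ((t / b : ℕ) : ℝ) := by
        exact_mod_cast (Nat.mod_add_div t b).symm
      rw [h2]
      ring
    rw [h1]
    refine (D_add _ _).trans ?_
    have h3 := D_mul (t % b) y
    have h4 := ih (t / b) ((b : ℝ) * y) (by
      rw [Nat.div_lt_iff_lt_mul (by omega)]
      rwa [pow_succ] at ht)
    have h5 : ((t % b : ℕ) : ℝ) ≤ b := by
      exact_mod_cast (Nat.mod_lt t (by omega)).le
    have h6 : ((t % b : ℕ) : ℝ) * ‖1 - e y‖ ≤ b * ‖1 - e y‖ :=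
      mul_le_mul_of_nonneg_right h5 (norm_nonneg _)
    rw [sum_range_succ', pow_zero, one_mul, mul_add]
    have h7 : ∑ i ∈ range q, ‖1 - e ((b : ℝ) ^ (i + 1) * y)‖ =
        ∑ i ∈ range q, ‖1 - e ((b : ℝ) ^ i * ((b : ℝ) * y))‖ := by
      refine sum_congr rfl fun i _ => ?_
      rw [pow_succ, mul_assoc]
    rw [h7]
    linarith

lemma cos_nat (b : ℕ) (hb : 2 ≤ b) (q t : ℕ) (y : ℝ) (ht : t < b ^ q) :
    1 - Real.cos (2 * Real.pi * (t * y)) ≤
      (b : ℝ) ^ 2 * q * ∑ i ∈ range q, (1 - Real.cos (2 * Real.pi * ((b : ℝ) ^ i * y))) := by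
  have h1 := D_digits b hb q t y ht
  have h2 : ‖1 - e (t * y)‖ ^ 2 ≤ (b * ∑ i ∈ range q, ‖1 - e ((b : ℝ) ^ i * y)‖) ^ 2 :=
    pow_le_pow_left₀ (norm_nonneg _) h1 2
  have h3 := sq_sum_le_card_mul_sum_sq (s := range q) (f := fun i => ‖1 - e ((b : ℝ) ^ i * y)‖)
  rw [card_range] at h3
  simp only [D_sq] at h3
  rw [← mul_sum] at h3
  rw [D_sq, mul_pow] at h2
  have h4 : (b : ℝ) ^ 2 * (∑ i ∈ range q, ‖1 - e ((b : ℝ) ^ i * y)‖) ^ 2 ≤
      (b : ℝ) ^ 2 * (q * (2 * ∑ i ∈ range q, (1 - Real.cos (2 * Real.pi * ((b : ℝ) ^ i * y))))) :=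
    mul_le_mul_of_nonneg_left h3 (by positivity)
  nlinarith

lemma cos_int (b : ℕ) (hb : 2 ≤ b) (q : ℕ) (t : ℤ) (y : ℝ) (ht : t.natAbs < b ^ q) :
    1 - Real.cos (2 * Real.pi * (t * y)) ≤
      (b : ℝ) ^ 2 * q * ∑ i ∈ range q, (1 - Real.cos (2 * Real.pi * ((b : ℝ) ^ i * y))) := by
  obtain ⟨k, hk | hk⟩ := Int.eq_nat_or_neg t
  · rw [hk, Int.natAbs_natCast] at ht
    rw [hk, Int.cast_natCast]
    exact cos_nat b hb q k y ht
  · rw [hk, Int.natAbs_neg, Int.natAbs_natCast] at ht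
    have h3 : 2 * Real.pi * ((t : ℝ) * y) = -(2 * Real.pi * ((k : ℝ) * y)) := by
      rw [hk, Int.cast_neg, Int.cast_natCast]
      ring
    rw [h3, Real.cos_neg]
    exact cos_nat b hb q k y ht

/-- the factor of a block -/
lemma v_ge (Q : ℕ) (hQ : 0 < Q) (p y β : ℝ) (hp : 0 ≤ p)
    (hβ : ∀ t : ℤ, t.natAbs < Q → 1 - Real.cos (2 * Real.pi * (t * y)) ≤ β) :
    1 - p * β ≤ v Q p y := by
  have h1 := sum_wt hQ p y
  have h2 : ∑ s : St Q, wt Q p s * Real.cos (2 * Real.pi * (jump Q s * y)) = v Q p y := by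
    have h3 := congrArg Complex.re h1
    rw [Complex.ofReal_re, Complex.re_sum] at h3
    rw [← h3]
    refine sum_congr rfl fun s _ => ?_
    rw [Complex.re_ofReal_mul, e_eq, Complex.add_re, Complex.ofReal_re, Complex.re_ofReal_mul,
      Complex.I_re, mul_zero, add_zero]
  have h3 := sum_wt_real hQ p
  rw [Fintype.sum_option] at h2 h3
  have hQ' : (0 : ℝ) < Q := by exact_mod_cast hQ
  have h4 : ∑ t : Fin Q × Fin Q, wt Q p (some t) * (1 -
      Real.cos (2 * Real.pi * (jump Q (some t) * y))) ≤ ∑ _t : Fin Q × Fin Q, p / (Q : ℝ) ^ 2 * β := by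
    refine sum_le_sum fun t _ => ?_
    have h0 : wt Q p (some t) = p / (Q : ℝ) ^ 2 := rfl
    rw [h0]
    refine mul_le_mul_of_nonneg_left ?_ (by positivity)
    refine hβ _ ?_
    have h5 := t.1.2
    have h6 := t.2.2
    simp only [jump]
    omega
  rw [sum_const, card_univ, Fintype.card_prod, Fintype.card_fin, nsmul_eq_mul] at h4
  have h5 : ((Q * Q : ℕ) : ℝ) * (p / (Q : ℝ) ^ 2 * β) = p * β := by
    push_cast
    field_simp
  rw [h5] at h4
  simp only [mul_sub, mul_one, sum_sub_distrib] at h4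
  simp only [wt, jump] at h2 h3 h4
  push_cast at h2 h3 h4
  rw [zero_mul, mul_zero, Real.cos_zero, mul_one] at h2
  linarith

lemma v_half (Q : ℕ) (p y : ℝ) (hp : 0 ≤ p) (hp' : p ≤ 1 / 2) : 1 / 2 ≤ v Q p y := by
  have h1 : 0 ≤ w Q y := by
    unfold w
    positivity
  unfold v
  nlinarith

lemma prod_bound {ι : Type*} (S : Finset ι) (x : ι → ℝ) (h0 : ∀ i ∈ S, 0 ≤ x i)
    (h1 : ∀ i ∈ S, x i ≤ 1) (u : ℝ) (hu : 1 / 2 ≤ u) (hu' : 1 - (∑ i ∈ S, x i) / 2 ≤ u) :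
    ∏ i ∈ S, (1 - x i) ≤ u := by
  obtain ⟨X, hX⟩ : ∃ X, X = ∑ i ∈ S, x i := ⟨_, rfl⟩
  have hX0 : 0 ≤ X := by
    rw [hX]
    exact sum_nonneg h0
  have h2 : ∏ i ∈ S, (1 - x i) ≤ Real.exp (-X) := by
    rw [hX, ← sum_neg_distrib, Real.exp_sum]
    refine prod_le_prod (fun i hi => by linarith [h1 i hi]) fun i _ => ?_
    have h3 := Real.add_one_le_exp (-(x i))
    linarith
  rw [← hX] at hu'
  rcases le_or_gt X 1 with hle | hgt
  · have h3 : Real.exp (-X) * (1 + X) ≤ 1 := by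
      have h4 := Real.add_one_le_exp X
      have h5 : Real.exp (-X) * Real.exp X = 1 := by
        rw [← Real.exp_add]
        simp
      have h6 : Real.exp (-X) * (1 + X) ≤ Real.exp (-X) * Real.exp X :=
        mul_le_mul_of_nonneg_left (by linarith) (Real.exp_pos _).le
      linarith
    have h4 : 1 ≤ (1 - X / 2) * (1 + X) := by nlinarith
    have h5 : Real.exp (-X) ≤ 1 - X / 2 := by
      by_contra hcon
      push Not at hcon
      have h6 : (1 - X / 2) * (1 + X) < Real.exp (-X) * (1 + X) :=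
        mul_lt_mul_of_pos_right hcon (by linarith)
      linarith
    linarith
  · have h3 : Real.exp (-X) ≤ Real.exp (-1) := Real.exp_le_exp.2 (by linarith)
    have h4 : Real.exp (-1) ≤ 1 / 2 := by
      have h5 := Real.add_one_le_exp (1 : ℝ)
      have h6 : Real.exp (-1) * Real.exp 1 = 1 := by
        rw [← Real.exp_add]
        simp
      nlinarith [Real.exp_pos (-1 : ℝ)]
    linarith

lemma blocks (f g : ℕ → ℝ) (h0 : ∀ i, 0 ≤ f i) (h1 : ∀ i, f i ≤ 1) (r q : ℕ)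
    (hg : ∀ B, ∏ i ∈ range q, f (r + B * q + i) ≤ g B) (m : ℕ) :
    ∏ i ∈ range (r + m * q), f i ≤ ∏ B ∈ range m, g B := by
  induction m with
  | zero =>
    simp only [zero_mul, add_zero, range_zero, prod_empty]
    exact prod_le_one (fun i _ => h0 i) (fun i _ => h1 i)
  | succ m ih =>
    have h : r + (m + 1) * q = (r + m * q) + q := by ring
    rw [h, prod_range_add, prod_range_succ]
    refine mul_le_mul ih (hg m) (prod_nonneg fun i _ => h0 _) ?_
    exact (prod_nonneg fun i _ => h0 _).trans ih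

lemma one_coord (s θ : ℝ) :
    ∑ a ∈ ({-1, 0, 1} : Finset ℤ), (((if a = 0 then 1 - s else s / 2 : ℝ) : ℂ)) * e (a * θ) =
      ((1 - s * (1 - Real.cos (2 * Real.pi * θ)) : ℝ) : ℂ) := by
  rw [sum_insert (by decide), sum_insert (by decide), sum_singleton]
  rw [if_neg (by decide), if_pos rfl, if_neg (by decide)]
  push_cast
  have h1 : e (-1 * θ) = (starRingEnd ℂ) (e θ) := by
    rw [e_conj]
    congr 1
    ring
  rw [h1, zero_mul, e_zero, one_mul, e_eq]
  simp only [map_add, map_mul, Complex.conj_ofReal, Complex.conj_I]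
  push_cast
  ring

theorem stMu : StMu := by
  intro b q r m K s hb hq hK hs0 hs1 j
  obtain ⟨y, hy⟩ : ∃ y : ℝ, y = (j : ℝ) / (b : ℝ) ^ K := ⟨_, rfl⟩
  obtain ⟨f, hf⟩ : ∃ f : ℕ → ℝ, ∀ i, f i =
      1 - s * (1 - Real.cos (2 * Real.pi * ((b : ℝ) ^ i * y))) := ⟨_, fun _ => rfl⟩
  have hb1 : (1 : ℝ) ≤ b := by exact_mod_cast (by omega : 1 ≤ b)
  have hq1 : (1 : ℝ) ≤ q := by exact_mod_cast hq
  have hx : ∀ i, 0 ≤ s * (1 - Real.cos (2 * Real.pi * ((b : ℝ) ^ i * y))) ∧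
      s * (1 - Real.cos (2 * Real.pi * ((b : ℝ) ^ i * y))) ≤ 1 := by
    intro i
    have h1 := Real.cos_le_one (2 * Real.pi * ((b : ℝ) ^ i * y))
    have h2 := Real.neg_one_le_cos (2 * Real.pi * ((b : ℝ) ^ i * y))
    refine ⟨mul_nonneg hs0 (by linarith), ?_⟩
    nlinarith
  have hf0 : ∀ i, 0 ≤ f i := fun i => by
    rw [hf]
    linarith [(hx i).2]
  have hf1 : ∀ i, f i ≤ 1 := fun i => by
    rw [hf]
    linarith [(hx i).1]
  obtain ⟨p, hp⟩ : ∃ p : ℝ, p = s / (2 * (b : ℝ) ^ 2 * q) := ⟨_, rfl⟩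
  have hden : 0 < 2 * (b : ℝ) ^ 2 * q := by positivity
  have hp0 : 0 ≤ p := by
    rw [hp]
    positivity
  have hp1 : p ≤ 1 / 2 := by
    rw [hp, div_le_iff₀ hden]
    have h1 : 1 ≤ (b : ℝ) ^ 2 * q := by nlinarith [one_le_pow₀ hb1 (n := 2)]
    linarith
  have hblock : ∀ B, ∏ i ∈ range q, f (r + B * q + i) ≤
      v (b ^ q) p ((b : ℝ) ^ (r + B * q) * y) := by
    intro B
    have h1 : ∏ i ∈ range q, f (r + B * q + i) = ∏ i ∈ range q,
        (1 - s * (1 - Real.cos (2 * Real.pi * ((b : ℝ) ^ i * ((b : ℝ) ^ (r + B * q) * y))))) := by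
      refine prod_congr rfl fun i _ => ?_
      rw [hf, pow_add (b : ℝ) (r + B * q) i]
      congr 4
      ring
    rw [h1]
    refine prod_bound _ _ ?_ ?_ _ (v_half _ _ _ hp0 hp1) ?_
    · intro i _
      have h2 := (hx (i + (r + B * q))).1
      rw [pow_add] at h2
      have h3 : (b : ℝ) ^ i * (b : ℝ) ^ (r + B * q) * y = (b : ℝ) ^ i * ((b : ℝ) ^ (r + B * q) * y) :=
        mul_assoc _ _ _
      rw [h3] at h2
      exact h2
    · intro i _
      have h2 := (hx (i + (r + B * q))).2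
      rw [pow_add] at h2
      have h3 : (b : ℝ) ^ i * (b : ℝ) ^ (r + B * q) * y = (b : ℝ) ^ i * ((b : ℝ) ^ (r + B * q) * y) :=
        mul_assoc _ _ _
      rw [h3] at h2
      exact h2
    · have h2 := v_ge (b ^ q) (by positivity) p ((b : ℝ) ^ (r + B * q) * y)
        ((b : ℝ) ^ 2 * q * ∑ i ∈ range q,
          (1 - Real.cos (2 * Real.pi * ((b : ℝ) ^ i * ((b : ℝ) ^ (r + B * q) * y))))) hp0
        (fun t ht => cos_int b hb q t _ ht)
      refine le_trans (le_of_eq ?_) h2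
      rw [← mul_sum, hp]
      obtain ⟨X, hX⟩ : ∃ X : ℝ, X = ∑ i ∈ range q,
          (1 - Real.cos (2 * Real.pi * ((b : ℝ) ^ i * ((b : ℝ) ^ (r + B * q) * y)))) := ⟨_, rfl⟩
      rw [← hX]
      field_simp
  refine ⟨∏ i ∈ range K, f i, prod_nonneg fun i _ => hf0 i, ?_, ?_⟩
  · have h1 := blocks f (fun B => v (b ^ q) p ((b : ℝ) ^ (r + B * q) * y)) hf0 hf1 r q hblock m
    have h2 : ∏ i ∈ range K, f i ≤ ∏ i ∈ range (r + m * q), f i := by
      obtain ⟨k, hk⟩ : ∃ k, K = (r + m * q) + k := ⟨K - (r + m * q), by omega⟩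
      rw [hk, prod_range_add]
      have h3 : ∏ i ∈ range k, f (r + m * q + i) ≤ 1 :=
        prod_le_one (fun i _ => hf0 _) (fun i _ => hf1 _)
      have h4 : 0 ≤ ∏ i ∈ range (r + m * q), f i := prod_nonneg fun i _ => hf0 i
      nlinarith
    refine h2.trans (h1.trans (le_of_eq ?_))
    unfold nuhat
    rw [prod_range, ← hp, ← hy]
  · have h1 := Finset.prod_univ_sum (fun _ : Fin K => ({-1, 0, 1} : Finset ℤ))
      (fun i a => (((if a = 0 then 1 - s else s / 2 : ℝ) : ℂ)) * e (a * ((b : ℝ) ^ (i : ℕ) * y)))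
    have h2 : ∀ i : Fin K, ∑ a ∈ ({-1, 0, 1} : Finset ℤ),
        (((if a = 0 then 1 - s else s / 2 : ℝ) : ℂ)) * e (a * ((b : ℝ) ^ (i : ℕ) * y)) =
          ((f i : ℝ) : ℂ) := by
      intro i
      rw [one_coord, hf]
    simp only [h2] at h1
    rw [prod_range, Complex.ofReal_prod, h1]
    unfold states
    refine sum_congr rfl fun ξ _ => ?_
    rw [prod_mul_distrib]
    unfold prob
    rw [Complex.ofReal_prod]
    congr 1
    rw [← e_sum]
    congr 1
    unfold zz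
    push_cast
    rw [← hy, sum_mul]
    refine sum_congr rfl fun i _ => ?_
    ring

end Pool.Agent.Helper63.CH
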